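import Pool.Agent.Helper74.DR.St

/-!
# Project DR, module TRE: completion of jokers and stack runs
-/

set_option autoImplicit false

namespace Pool.Agent.Helper34.DR

open Pool.Agent.Helper74.DR

section

variable {T : Type}

theorem fwd (w' : List (T × Bool)) (h : Dyck w') : ∀ (w : List (Option (T × Bool)))
    (σ : List (Option T)), List.Forall₂ (fun o b => o = none ∨ o = some b) w w' → Tr w σ σ := by
  induction h with
  | nil =>
    intro w σ hw
    rw [List.forall₂_nil_right_iff] at hw
    subst hw
    exact rfl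
  | wrap t u v hu hv ihu ihv =>
    intro w σ hw
    obtain ⟨a, w0, ha, hw0, rfl⟩ := List.forall₂_cons_right_iff.mp hw
    have h1 := List.forall₂_take_append _ _ _ hw0
    have h2 := List.forall₂_drop_append _ _ _ hw0
    obtain ⟨b, w2, hb, hw2, hd⟩ := List.forall₂_cons_right_iff.mp h2
    have e : w0 = List.take u.length w0 ++ b :: w2 := by
      rw [← hd, List.take_append_drop]
    rw [e]
    have key : ∀ x : Option T, (x = none ∨ x = some t) →
        Tr (List.take u.length w0 ++ b :: w2) (x :: σ) σ := by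
      intro x hx
      rw [tr_append]
      refine ⟨x :: σ, ihu _ _ h1, ?_⟩
      rcases hb with rfl | rfl
      · rw [tr_jk]
        exact Or.inr ⟨x, σ, rfl, ihv _ _ hw2⟩
      · rw [tr_cl]
        exact ⟨x, σ, rfl, hx, ihv _ _ hw2⟩
    rcases ha with rfl | rfl
    · rw [tr_jk]
      exact Or.inl (key none (Or.inl rfl))
    · rw [tr_op]
      exact key (some t) (Or.inr rfl)

/-- typed runs -/
def DT : List (T × Bool) → List T → Prop
  | [], s => s = []
  | (t, true) :: w, s => DT w (t :: s)
  | (t, false) :: w, s => ∃ s', s = t :: s' ∧ DT w s'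

/-- segments -/
def Sg : List (T × Bool) → List T → Prop
  | w, [] => Dyck w
  | w, t :: s => ∃ d w₁, w = d ++ (t, false) :: w₁ ∧ Dyck d ∧ Sg w₁ s

theorem typed [Nonempty T] : ∀ (w : List (Option (T × Bool))) (σ : List (Option T)), Tr w σ [] →
    ∃ (w' : List (T × Bool)) (s : List T), List.Forall₂ (fun o b => o = none ∨ o = some b) w w' ∧
      List.Forall₂ (fun o t => o = none ∨ o = some t) σ s ∧ DT w' s := by
  intro w
  induction w with
  | nil =>
    intro σ h
    rw [tr_nil] at h
    subst h
    exact ⟨[], [], List.Forall₂.nil, List.Forall₂.nil, rfl⟩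
  | cons a w ih =>
    intro σ h
    rcases a with _ | ⟨t, b⟩
    · rw [tr_jk] at h
      rcases h with h | ⟨x, σ', rfl, h⟩
      · obtain ⟨w', s, h1, h2, h3⟩ := ih _ h
        obtain ⟨t, s', _, h5, rfl⟩ := List.forall₂_cons_left_iff.mp h2
        exact ⟨(t, true) :: w', s', List.Forall₂.cons (Or.inl rfl) h1, h5, h3⟩
      · obtain ⟨w', s, h1, h2, h3⟩ := ih _ h
        have hx : ∃ t : T, x = none ∨ x = some t := by
          rcases x with _ | t
          · exact ⟨Classical.arbitrary T, Or.inl rfl⟩
          · exact ⟨t, Or.inr rfl⟩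
        obtain ⟨t, hx⟩ := hx
        exact ⟨(t, false) :: w', t :: s, List.Forall₂.cons (Or.inl rfl) h1,
          List.Forall₂.cons hx h2, s, rfl, h3⟩
    · cases b
      · rw [tr_cl] at h
        obtain ⟨x, σ', rfl, hx, h⟩ := h
        obtain ⟨w', s, h1, h2, h3⟩ := ih _ h
        exact ⟨(t, false) :: w', t :: s, List.Forall₂.cons (Or.inr rfl) h1,
          List.Forall₂.cons hx h2, s, rfl, h3⟩
      · rw [tr_op] at h
        obtain ⟨w', s, h1, h2, h3⟩ := ih _ h
        obtain ⟨t', s', h4, h5, rfl⟩ := List.forall₂_cons_left_iff.mp h2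
        have h6 : t' = t := by
          rcases h4 with h4 | h4
          · exact absurd h4 (by simp)
          · exact (Option.some.inj h4).symm
        subst h6
        exact ⟨(t', true) :: w', s', List.Forall₂.cons (Or.inr rfl) h1, h5, h3⟩

theorem seg : ∀ (w : List (T × Bool)) (s : List T), DT w s → Sg w s := by
  intro w
  induction w with
  | nil =>
    intro s h
    have h' : s = [] := h
    subst h'
    exact Dyck.nil
  | cons a w ih =>
    intro s h
    obtain ⟨t, b⟩ := a
    cases b
    · obtain ⟨s', rfl, h⟩ := h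
      exact ⟨[], w, rfl, Dyck.nil, ih _ h⟩
    · have h1 : Sg w (t :: s) := ih _ h
      obtain ⟨d, w₁, rfl, hd, h2⟩ := h1
      rcases s with _ | ⟨t', s'⟩
      · exact Dyck.wrap t d w₁ hd h2
      · obtain ⟨d', w₂, rfl, hd', h3⟩ := h2
        exact ⟨(t, true) :: (d ++ (t, false) :: d'), w₂, by simp, Dyck.wrap t d d' hd hd', h3⟩

end

theorem hTRE : StTRE := by
  intro T _ w
  constructor
  · rintro ⟨w', hw', h⟩
    exact fwd w' hw' w [] h
  · intro h
    obtain ⟨w', s, h1, h2, h3⟩ := typed w [] h
    rw [List.forall₂_nil_left_iff] at h2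
    subst h2
    exact ⟨w', seg w' [] h3, h1⟩

end Pool.Agent.Helper34.DR
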